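import Mathlib
import Pool.Agent.H.MP_41ff45_gt.Main

set_option autoImplicit false

namespace Pool.Agent.Results.MP_c24ba3_gt.Counter

open Set

def hist {α : Type} (F : ℕ → α) : ℕ → List α
  | 0 => []
  | n + 1 => F n :: hist F n

def KC {X : Type} [TopologicalSpace X] (𝒰 : Set (Set X)) : Prop :=
  (∀ U ∈ 𝒰, IsOpen U) ∧ ⋃₀ 𝒰 = univ ∧ ∀ K, IsCompact K → ∃ U ∈ 𝒰, K ⊆ U

variable (X : Type) [TopologicalSpace X]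

def KMenger : Prop := ∀ 𝒰 : ℕ → Set (Set X), (∀ n, KC (𝒰 n)) →
  ∃ F : ℕ → Set (Set X), (∀ n, (F n).Finite ∧ F n ⊆ 𝒰 n) ∧ KC (⋃ n, F n)

def KRoth : Prop := ∀ 𝒰 : ℕ → Set (Set X), (∀ n, KC (𝒰 n)) →
  ∃ U : ℕ → Set X, (∀ n, U n ∈ 𝒰 n) ∧ KC (range U)

def StratFin : Prop := ∃ σ : List (Set (Set X)) → Set (Set X) → Set (Set X),
  ∀ 𝒰 : ℕ → Set (Set X), (∀ n, KC (𝒰 n)) →
    (∀ n, (σ (hist 𝒰 n) (𝒰 n)).Finite ∧ σ (hist 𝒰 n) (𝒰 n) ⊆ 𝒰 n) ∧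
      KC (⋃ n, σ (hist 𝒰 n) (𝒰 n))

def StratOne : Prop := ∃ σ : List (Set (Set X)) → Set (Set X) → Set X,
  ∀ 𝒰 : ℕ → Set (Set X), (∀ n, KC (𝒰 n)) →
    (∀ n, σ (hist 𝒰 n) (𝒰 n) ∈ 𝒰 n) ∧ KC (range fun n => σ (hist 𝒰 n) (𝒰 n))

lemma length_hist {α : Type} (F : ℕ → α) (n : ℕ) : (hist F n).length = n := by
  induction n with
  | zero => rfl
  | succ n ih => exact congrArg (· + 1) ih

theorem result : ∃ (X : Type) (_ : TopologicalSpace X), T1Space X ∧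
    (KMenger X ∧ ¬ KRoth X) ∧ StratFin X ∧ ¬ StratOne X := by
  obtain ⟨σ, h1, h2⟩ := Pool.Agent.H.MP_41ff45_gt.markov
  obtain ⟨𝒰, h3, h4⟩ := Pool.Agent.H.MP_41ff45_gt.not_roth
  refine ⟨Pool.Agent.H.MP_41ff45_gt.X, inferInstance, inferInstance,
    ⟨fun 𝒱 h => ⟨_, fun n => h1 _ n (h n), h2 𝒱 h⟩, fun h => (h 𝒰 h3).elim fun U h => h4 U h.1 h.2⟩,
    ⟨fun l 𝒱 => σ 𝒱 l.length, fun 𝒱 h => ?_⟩, fun ⟨_, h⟩ => h4 _ (h 𝒰 h3).1 (h 𝒰 h3).2⟩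
  simp only [length_hist]
  exact ⟨fun n => h1 _ n (h n), h2 𝒱 h⟩

end Pool.Agent.Results.MP_c24ba3_gt.Counter
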